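import Pool.Agent.N646.RG.All

/-! Project UW: right-order differences in the windows around the differences of any `m` places. -/

set_option autoImplicit false

namespace Pool.Agent.N646.UW

open Finset Filter Topology
open Pool.Agent.N646.RG

/-- the number of the primes `p` with `a < p < b` for which `p + h` is a prime between `a` and `b` -/
noncomputable def pairs (h : ℤ) (a b : ℕ) : ℕ :=
  {p : ℕ | p.Prime ∧ a < p ∧ p < b ∧ ∃ q : ℕ, q.Prime ∧ a < q ∧ q < b ∧ (q : ℤ) = p + h}.ncard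

/-- the number of the nonzero multiples `h` of `M` with `|h - v| < M T` which are the difference of at least
`κ b / (log b) ^ 2` pairs of primes between `a` and `b` -/
noncomputable def goodNear (κ : ℝ) (a b M T : ℕ) (v : ℤ) : ℕ :=
  {h : ℤ | h ≠ 0 ∧ (M : ℤ) ∣ h ∧ |h - v| < M * T ∧ κ * b / Real.log b ^ 2 ≤ (pairs h a b : ℝ)}.ncard

theorem gdf_pairs {κ : ℝ} {N Y a A B : ℕ} (hG : Gdf κ N ![((1 : ℤ), (A : ℤ)), ((1 : ℤ), (B : ℤ))])
    (h1 : ∀ n ∈ IN N, a < n ∧ n + A < Y ∧ n + B < Y) :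
    κ * (N / Real.log N ^ 2) ≤ (pairs ((B : ℤ) - A) a Y : ℝ) := by
  unfold Gdf at hG
  refine hG.trans ?_
  rw [Nat.cast_le]
  unfold pairs
  have hfin : {p : ℕ | p.Prime ∧ a < p ∧ p < Y ∧ ∃ q : ℕ, q.Prime ∧ a < q ∧ q < Y ∧
      (q : ℤ) = p + ((B : ℤ) - A)}.Finite := (Set.finite_Iio Y).subset fun p hp => hp.2.2.1
  rw [Set.ncard_eq_toFinset_card _ hfin]
  apply card_le_card_of_injOn (fun n : ℕ => n + A)
  · intro n hn
    rw [mem_coe, mem_filter] at hn
    have h0 : (ev ((1 : ℤ), (A : ℤ)) n).toNat.Prime := hn.2 0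
    have h2 : (ev ((1 : ℤ), (B : ℤ)) n).toNat.Prime := hn.2 1
    have h3 := h1 n hn.1
    have e1 : (ev ((1 : ℤ), (A : ℤ)) n).toNat = n + A := by
      show ((1 : ℤ) * (n : ℤ) + (A : ℤ)).toNat = n + A
      rw [one_mul]
      omega
    have e2 : (ev ((1 : ℤ), (B : ℤ)) n).toNat = n + B := by
      show ((1 : ℤ) * (n : ℤ) + (B : ℤ)).toNat = n + B
      rw [one_mul]
      omega
    rw [e1] at h0
    rw [e2] at h2
    rw [mem_coe, Set.Finite.mem_toFinset]
    refine ⟨h0, by show a < n + A; omega, h3.2.1, n + B, h2, by omega, h3.2.2, ?_⟩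
    push_cast
    ring
  · intro n _ n' _ he
    have he' : n + A = n' + A := he
    omega

theorem near_finite (κ : ℝ) (a b M T : ℕ) (v : ℤ) :
    {h : ℤ | h ≠ 0 ∧ (M : ℤ) ∣ h ∧ |h - v| < M * T ∧ κ * b / Real.log b ^ 2 ≤ (pairs h a b : ℝ)}.Finite := by
  apply (Set.finite_Ioo (v - M * T) (v + M * T)).subset
  rintro h ⟨_, _, h1, _⟩
  rw [abs_lt] at h1
  exact ⟨by linarith [h1.1], by linarith [h1.2]⟩

theorem sum_pairs {m : ℕ} (S : Finset (Fin m)) (a : Fin m → ℝ) :
    ∑ i ∈ S, ∑ j ∈ S.filter (fun j => i < j), (a i + a j) = ((S.card : ℝ) - 1) * ∑ i ∈ S, a i := by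
  have h1 : ∑ i ∈ S, ∑ j ∈ S.filter (fun j => i < j), a j =
      ∑ i ∈ S, ∑ j ∈ S.filter (fun j => j < i), a i := by
    rw [sum_comm' (s := S) (t := fun i => S.filter (fun j => i < j)) (t' := S)
      (s' := fun j => S.filter (fun i => i < j))]
    intro i j
    simp only [mem_filter]
    tauto
  have h2 : ∀ i ∈ S, ((S.filter (fun j => i < j)).card : ℝ) + (S.filter (fun j => j < i)).card =
      (S.card : ℝ) - 1 := by
    intro i hi
    have h3 : S.erase i = S.filter (fun j => i < j) ∪ S.filter (fun j => j < i) := by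
      ext j
      simp only [mem_erase, mem_union, mem_filter]
      constructor
      · rintro ⟨h4, h5⟩
        rcases lt_or_gt_of_ne h4 with h6 | h6
        · exact Or.inr ⟨h5, h6⟩
        · exact Or.inl ⟨h5, h6⟩
      · rintro (⟨h4, h5⟩ | ⟨h4, h5⟩)
        · exact ⟨h5.ne', h4⟩
        · exact ⟨h5.ne, h4⟩
    have h4 : Disjoint (S.filter (fun j => i < j)) (S.filter (fun j => j < i)) := by
      rw [disjoint_filter]
      intro j _ h5 h6
      exact absurd h5 (not_lt.2 h6.le)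
    have h5 := card_union_of_disjoint h4
    rw [← h3, card_erase_of_mem hi] at h5
    have h6 : 1 ≤ S.card := Finset.card_pos.2 ⟨i, hi⟩
    have h7 : ((S.card - 1 : ℕ) : ℝ) = (S.card : ℝ) - 1 := by
      rw [Nat.cast_sub h6, Nat.cast_one]
    rw [← h7, h5]
    push_cast
    ring
  calc ∑ i ∈ S, ∑ j ∈ S.filter (fun j => i < j), (a i + a j)
      = ∑ i ∈ S, ∑ j ∈ S.filter (fun j => i < j), a i + ∑ i ∈ S, ∑ j ∈ S.filter (fun j => i < j), a j := by
        rw [← sum_add_distrib]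
        exact sum_congr rfl fun i _ => sum_add_distrib
    _ = ∑ i ∈ S, ((S.card : ℝ) - 1) * a i := by
        rw [h1, ← sum_add_distrib]
        refine sum_congr rfl fun i hi => ?_
        rw [sum_const, sum_const, nsmul_eq_mul, nsmul_eq_mul, ← add_mul, h2 i hi]
    _ = _ := by rw [mul_sum]

end Pool.Agent.N646.UW
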