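import Pool.Agent.N646.UW.Main

/-! Project UW: assembly. -/

set_option autoImplicit false

namespace Pool.Agent.N646.UW

open Finset Filter Topology
open Pool.Agent.N646.RO (S_WC)
open Pool.Agent.N646.RG

open Classical in
/-- two cliques and the good differences between them -/
theorem two {κ₀ κ : ℝ} {a Y M T A B N : ℕ} {ε₁ : ℝ} (hM : 1 ≤ M) (hT : 1 ≤ T)
    (hMA : M ∣ A) (hMB : M ∣ B)
    (hκ : ∀ y z, y < T → z < T → Gdf κ N ![sh ((1 : ℤ), (A : ℤ)) (M * y), sh ((1 : ℤ), (B : ℤ)) (M * z)] →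
      κ₀ * Y / Real.log Y ^ 2 ≤ (pairs (((B + M * z : ℕ) : ℤ) - (A + M * y : ℕ)) a Y : ℝ))
    (P Q : Finset ℕ) (hP : P ⊆ range T) (hQ : Q ⊆ range T)
    (hbad : (((P ×ˢ Q).filter (fun x =>
      ¬ Gdf κ N ![sh ((1 : ℤ), (A : ℤ)) (M * x.1), sh ((1 : ℤ), (B : ℤ)) (M * x.2)])).card : ℝ) ≤
        ε₁ * (T : ℝ) ^ 2) (s : ℕ) (hs : 1 ≤ s) (hsP : s ≤ P.card) (hsQ : s ≤ Q.card) :
    (P.card : ℝ) + Q.card - s - ε₁ * (T : ℝ) ^ 2 / s - 2 ≤ (goodNear κ₀ a Y M T ((B : ℤ) - A) : ℝ) := by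
  set E : ℕ → Prop := fun w => κ₀ * Y / Real.log Y ^ 2 ≤
    (pairs ((B : ℤ) - A + M * ((w : ℤ) - ((T - 1 : ℕ) : ℤ))) a Y : ℝ) with hE
  have h1 := popsum Pool.Agent.N123.RGPOL.main (refl T P) Q T s (refl_sub hT) hQ hs
    (by rw [refl_card hP]; exact hsP) hsQ E (ε₁ * (T : ℝ) ^ 2) (by
      refine le_trans ?_ hbad
      rw [Nat.cast_le]
      apply card_le_card_of_injOn (fun x => (T - 1 - x.1, x.2))
      · rintro ⟨y, z⟩ hx
        rw [mem_coe, mem_filter, mem_product] at hx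
        obtain ⟨⟨hx1, hx2⟩, hx3⟩ := hx
        obtain ⟨h2, h3⟩ := refl_mem hP hx1
        rw [mem_coe, mem_filter, mem_product]
        refine ⟨⟨h2, hx2⟩, fun hG => hx3 ?_⟩
        have h4 := hκ (T - 1 - y) z (mem_range.1 (hP h2)) (mem_range.1 (hQ hx2)) hG
        have e : (((B + M * z : ℕ) : ℤ) - (A + M * (T - 1 - y) : ℕ)) =
            (B : ℤ) - A + M * (((y + z : ℕ) : ℤ) - ((T - 1 : ℕ) : ℤ)) := by
          have h5 : ((T - 1 : ℕ) : ℤ) = y + ((T - 1 - y : ℕ) : ℤ) := by exact_mod_cast h3.symm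
          rw [h5]
          push_cast
          ring
        rw [e] at h4
        exact h4
      · rintro ⟨y, z⟩ hx ⟨y', z'⟩ hx' h
        rw [mem_coe, mem_filter, mem_product] at hx hx'
        have h2 := (refl_mem hP hx.1.1).2
        have h3 := (refl_mem hP hx'.1.1).2
        simp only [Prod.mk.injEq] at h
        obtain ⟨h4, h5⟩ := h
        refine Prod.ext ?_ h5
        dsimp only at h2 h3 ⊢
        omega)
  rw [refl_card hP] at h1
  have h2 : ((range (2 * T)).filter E).card ≤ goodNear κ₀ a Y M T ((B : ℤ) - A) + 2 := by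
    unfold goodNear
    rw [Set.ncard_eq_toFinset_card _ (near_finite κ₀ a Y M T ((B : ℤ) - A))]
    set g : ℕ → ℤ := fun w => (B : ℤ) - A + M * ((w : ℤ) - ((T - 1 : ℕ) : ℤ)) with hg
    have hginj : Function.Injective g := by
      intro w w' hw
      have hM0 : (M : ℤ) ≠ 0 := by exact_mod_cast (by omega : M ≠ 0)
      have h3 : (M : ℤ) * ((w : ℤ) - ((T - 1 : ℕ) : ℤ)) = M * ((w' : ℤ) - ((T - 1 : ℕ) : ℤ)) :=
        add_left_cancel hw
      have h4 := mul_left_cancel₀ hM0 h3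
      have h5 : (w : ℤ) = w' := sub_left_injective h4
      exact_mod_cast h5
    have h3 : ((range (2 * T)).filter E).card = (((range (2 * T)).filter E).image g).card :=
      (card_image_of_injective _ hginj).symm
    rw [h3]
    have h4 : ((range (2 * T)).filter E).image g ⊆
        (near_finite κ₀ a Y M T ((B : ℤ) - A)).toFinset ∪ {0, (B : ℤ) - A + M * T} := by
      intro z hz
      obtain ⟨w, hw, rfl⟩ := mem_image.1 hz
      obtain ⟨hw1, hw2⟩ := mem_filter.1 hw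
      rw [mem_range] at hw1
      by_cases h5 : g w = 0
      · rw [h5]
        simp
      by_cases h6 : w = 2 * T - 1
      · rw [mem_union]
        right
        have h7 : g w = (B : ℤ) - A + M * T := by
          show (B : ℤ) - A + M * ((w : ℤ) - ((T - 1 : ℕ) : ℤ)) = _
          have : (w : ℤ) - ((T - 1 : ℕ) : ℤ) = T := by omega
          rw [this]
        rw [h7]
        simp
      rw [mem_union]
      left
      rw [Set.Finite.mem_toFinset]
      refine ⟨h5, ?_, ?_, hw2⟩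
      · show (M : ℤ) ∣ (B : ℤ) - A + M * ((w : ℤ) - ((T - 1 : ℕ) : ℤ))
        exact dvd_add (dvd_sub (Int.natCast_dvd_natCast.2 hMB) (Int.natCast_dvd_natCast.2 hMA))
          (dvd_mul_right _ _)
      · show |(B : ℤ) - A + M * ((w : ℤ) - ((T - 1 : ℕ) : ℤ)) - ((B : ℤ) - A)| < M * T
        have e : (B : ℤ) - A + M * ((w : ℤ) - ((T - 1 : ℕ) : ℤ)) - ((B : ℤ) - A) =
            M * ((w : ℤ) - ((T - 1 : ℕ) : ℤ)) := by ring
        rw [e, abs_mul, Nat.abs_cast]
        apply mul_lt_mul_of_pos_left _ (by exact_mod_cast hM)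
        rw [abs_lt]
        constructor <;> omega
    refine (card_le_card h4).trans ((card_union_le _ _).trans ?_)
    have h5 : ({0, (B : ℤ) - A + M * T} : Finset ℤ).card ≤ 2 := card_le_two
    omega
  have h3 : (((range (2 * T)).filter E).card : ℝ) ≤ (goodNear κ₀ a Y M T ((B : ℤ) - A) : ℝ) + 2 := by
    exact_mod_cast h2
  linarith

open Classical in
/-- **windows around the differences of `m` places** -/
theorem main (m s : ℕ) (hs : 18 * s < 5 * m) (ε : ℝ) (hε : 0 < ε) : ∃ M : ℕ, 1 ≤ M ∧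
    ∀ lam : ℝ, 0 < lam → ∃ κ : ℝ, 0 < κ ∧ ∀ᶠ Y : ℕ in atTop, ∀ a : ℕ, a ^ 2 ≤ Y → ∀ T : ℕ,
      lam * Real.log Y ≤ T → 100 * (M * T) ≤ Y → ∀ c : Fin m → ℕ, (∀ i, M ∣ c i) → (∀ i, 2 * c i ≤ Y) →
      (s * (5 * m / 18) - ε) * (T : ℝ) ≤
        ∑ i, ∑ j ∈ Ioi i, (goodNear κ a Y M T ((c j : ℤ) - c i) : ℝ) := by
  have hm : 1 ≤ m := by omega
  have hmR : (1 : ℝ) ≤ m := by exact_mod_cast hm
  have hsm : (s : ℝ) ≤ m := by
    have : s ≤ m := by omega
    exact_mod_cast this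
  have hsR : (s : ℝ) + 1 / 18 ≤ 5 * m / 18 := by
    have h1 : 18 * s + 1 ≤ 5 * m := hs
    have h2 : (18 : ℝ) * s + 1 ≤ 5 * m := by exact_mod_cast h1
    linarith
  -- the constants
  set δ : ℝ := min ε 1 / (36 * (m : ℝ) ^ 2) with hδ
  have hmin : 0 < min ε 1 := lt_min hε one_pos
  have hδ0 : 0 < δ := by positivity
  have hδ1 : 36 * (m : ℝ) ^ 2 * δ = min ε 1 := by
    rw [hδ]
    field_simp
  have hmin1 : min ε 1 ≤ 1 := min_le_right _ _
  have hmin2 : min ε 1 ≤ ε := min_le_left _ _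
  have hδle : δ ≤ 1 / 36 := by
    have : (1 : ℝ) ≤ (m : ℝ) ^ 2 := one_le_pow₀ hmR
    nlinarith
  set ε₁ : ℝ := δ ^ 2 with hε₁
  have hε₁0 : 0 < ε₁ := by positivity
  have hε₁δ : ε₁ ≤ δ := by
    rw [hε₁]
    nlinarith
  obtain ⟨M, hM, -, hcl⟩ := clq (Pool.Agent.N591.RQ.main Pool.Agent.N595.RQ.main) (sHITM2 1) m hm ε₁ hε₁0
  have hMR : (1 : ℝ) ≤ M := by exact_mod_cast hM
  refine ⟨M, hM, fun lam hlam => ?_⟩
  obtain ⟨κ, hκ, hev⟩ := hcl lam hlam
  obtain ⟨N₀, hN₀⟩ := eventually_atTop.1 hev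
  refine ⟨κ / 2, by positivity, ?_⟩
  have hlog : Tendsto (fun N : ℕ => lam * Real.log (N : ℝ)) atTop atTop :=
    (Real.tendsto_log_atTop.comp tendsto_natCast_atTop_atTop).const_mul_atTop hlam
  filter_upwards [hlog.eventually_ge_atTop (2 / δ + 1), eventually_ge_atTop (2 * N₀ + 2000)]
    with Y hYl hY a ha T hT1 hT2 c hcM hcY
  have hTbig := hYl.trans hT1
  have hδ2 : 0 < 2 / δ := by positivity
  have hT0 : (0 : ℝ) < T := by linarith
  have hT : 1 ≤ T := by exact_mod_cast hT0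
  have hYR : (1000 : ℝ) ≤ Y := by exact_mod_cast (by omega : 1000 ≤ Y)
  have hlY : 0 < Real.log Y := Real.log_pos (by linarith)
  set N : ℕ := 2 * Y / 3 with hN
  have hNY : N ≤ Y := by omega
  have hNN₀ : N₀ ≤ N := by omega
  have hN3 : 3 ≤ N := by omega
  have hNR : (3 : ℝ) ≤ N := by exact_mod_cast hN3
  have hlN : 0 < Real.log N := Real.log_pos (by linarith)
  have hlNY : Real.log N ≤ Real.log Y := Real.log_le_log (by linarith) (by exact_mod_cast hNY)
  have hNY2 : (Y : ℝ) ≤ 2 * N := by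
    have : Y ≤ 2 * N := by omega
    exact_mod_cast this
  have hTN : lam * Real.log N ≤ T := (mul_le_mul_of_nonneg_left hlNY hlam.le).trans hT1
  have haY : 36 * a ≤ Y := by
    have h2 : a < 36 ∨ 36 ≤ a := by omega
    rcases h2 with h2 | h2
    · omega
    · have h3 : 36 * a ≤ a ^ 2 := by nlinarith
      exact h3.trans ha
  obtain ⟨A, hA1, hA2, hA3⟩ := hN₀ N hNN₀ T hTN (by omega) (fun i => ((1 : ℤ), (c i : ℤ))) (by
    intro i t ht
    have h1 := hcY i
    have h3 : M * t ≤ M * T := Nat.mul_le_mul_left _ ht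
    refine ⟨Or.inl rfl, ?_, ?_⟩
    · show 10 * |((c i : ℕ) : ℤ) + ((M * t : ℕ) : ℤ)| ≤ 9 * N
      rw [abs_of_nonneg (by positivity)]
      have h4 : 10 * (c i + M * t) ≤ 9 * N := by
        generalize M * t = b at h3
        omega
      exact_mod_cast h4
    · intro r hr1 _
      show (N : ℝ) / 20 ≤ ((1 : ℤ) : ℝ) * r + (((((c i : ℕ) : ℤ) + ((M * t : ℕ) : ℤ)) : ℤ) : ℝ)
      have h4 : (0 : ℝ) ≤ (((((c i : ℕ) : ℤ) + ((M * t : ℕ) : ℤ)) : ℤ) : ℝ) := by positivity
      rw [Int.cast_one, one_mul]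
      linarith) (by
    intro p hp hpM
    refine ⟨1, fun i hdvd => ?_⟩
    have h1 : (p : ℤ) ∣ (c i : ℤ) := Int.natCast_dvd_natCast.2 (hpM.trans (hcM i))
    have h2 : (p : ℤ) ∣ 1 := by
      have h3 : (p : ℤ) ∣ (1 : ℤ) * 1 + (c i : ℤ) := hdvd
      rw [one_mul] at h3
      exact (Int.dvd_add_left h1).1 h3
    have h6 := Int.natCast_dvd_natCast.1 (by exact_mod_cast h2 : ((p : ℕ) : ℤ) ∣ ((1 : ℕ) : ℤ))
    exact hp.one_lt.ne' (Nat.dvd_one.1 h6))
  -- conversion of good pairs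
  have hconv : ∀ i j y z, y < T → z < T →
      Gdf κ N ![sh ((1 : ℤ), (c i : ℤ)) (M * y), sh ((1 : ℤ), (c j : ℤ)) (M * z)] →
      κ / 2 * Y / Real.log Y ^ 2 ≤ (pairs (((c j + M * z : ℕ) : ℤ) - (c i + M * y : ℕ)) a Y : ℝ) := by
    intro i j y z hy hz hG
    have e : (![sh ((1 : ℤ), (c i : ℤ)) (M * y), sh ((1 : ℤ), (c j : ℤ)) (M * z)] : Fin (1 + 1) → ℤ × ℤ) =
        ![((1 : ℤ), ((c i + M * y : ℕ) : ℤ)), ((1 : ℤ), ((c j + M * z : ℕ) : ℤ))] := by
      unfold sh
      push_cast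
      rfl
    rw [e] at hG
    have h1 := hcY i
    have h2 := hcY j
    have h3 : M * y ≤ M * T := Nat.mul_le_mul_left _ hy.le
    have h4 : M * z ≤ M * T := Nat.mul_le_mul_left _ hz.le
    have h5 := gdf_pairs (a := a) (Y := Y) hG (by
      intro n hn
      unfold IN at hn
      rw [mem_Icc] at hn
      generalize M * y = b1 at h3
      generalize M * z = b2 at h4
      refine ⟨by omega, by omega, by omega⟩)
    refine le_trans ?_ h5
    have h6 : κ / 2 * Y / Real.log Y ^ 2 = κ * ((Y / 2) / Real.log Y ^ 2) := by ring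
    rw [h6]
    apply mul_le_mul_of_nonneg_left _ hκ.le
    apply div_le_div₀ (by linarith) (by linarith) (by positivity)
    exact pow_le_pow_left₀ hlN.le hlNY 2
  -- the large cliques
  set s₁ : ℕ := ⌈δ * T⌉₊ with hs₁
  have hs₁1 : 1 ≤ s₁ := Nat.one_le_iff_ne_zero.2 (by
    have : 0 < s₁ := Nat.ceil_pos.2 (by positivity)
    omega)
  have hs₁a : δ * T ≤ s₁ := Nat.le_ceil _
  have hδT : 2 ≤ δ * T := by
    have h1 : 2 / δ ≤ T := by linarith
    rw [div_le_iff₀ hδ0] at h1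
    linarith
  have hs₁b : (s₁ : ℝ) ≤ 2 * δ * T := by
    have h1 : (s₁ : ℝ) < δ * T + 1 := Nat.ceil_lt_add_one (by positivity)
    linarith
  set S : Finset (Fin m) := univ.filter (fun i => s₁ ≤ (A i).card) with hS
  have hAT : ∀ i, ((A i).card : ℝ) ≤ T := by
    intro i
    have := card_le_card (hA1 i)
    rw [card_range] at this
    exact_mod_cast this
  have hsumS : (5 * m / 18 - 3 * m * δ) * (T : ℝ) ≤ ∑ i ∈ S, ((A i).card : ℝ) := by
    have h1 : ∑ i, ((A i).card : ℝ) = ∑ i ∈ S, ((A i).card : ℝ) +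
        ∑ i ∈ univ.filter (fun i => ¬ s₁ ≤ (A i).card), ((A i).card : ℝ) := by
      rw [hS, sum_filter_add_sum_filter_not]
    have h2 : ∑ i ∈ univ.filter (fun i => ¬ s₁ ≤ (A i).card), ((A i).card : ℝ) ≤ m * (2 * δ * T) := by
      have h3 : ∑ i ∈ univ.filter (fun i => ¬ s₁ ≤ (A i).card), ((A i).card : ℝ) ≤
          ∑ _i ∈ univ.filter (fun i : Fin m => ¬ s₁ ≤ (A i).card), (2 * δ * T : ℝ) := by
        refine sum_le_sum fun i hi => ?_
        have h4 := (mem_filter.1 hi).2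
        have h5 : ((A i).card : ℝ) ≤ s₁ := by exact_mod_cast (not_le.1 h4).le
        exact h5.trans hs₁b
      refine h3.trans ?_
      rw [sum_const, nsmul_eq_mul]
      apply mul_le_mul_of_nonneg_right _ (by positivity)
      have h6 : (univ.filter (fun i : Fin m => ¬ s₁ ≤ (A i).card)).card ≤ m := by
        refine (card_filter_le _ _).trans ?_
        rw [card_univ, Fintype.card_fin]
      exact_mod_cast h6
    have h3 : (5 / 18 - ε₁) * (m * T) ≤ ∑ i, ((A i).card : ℝ) := by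
      have := hA2
      push_cast at this
      exact this
    have h4 : ε₁ * (m * T) ≤ δ * (m * T) := mul_le_mul_of_nonneg_right hε₁δ (by positivity)
    nlinarith
  have hmδ : m * δ ≤ 1 / 36 := by
    have h1 : (m : ℝ) ≤ (m : ℝ) ^ 2 := by nlinarith
    nlinarith
  have hScard : s + 1 ≤ S.card := by
    have h1 : ∑ i ∈ S, ((A i).card : ℝ) ≤ S.card * T := by
      refine (sum_le_sum fun i _ => hAT i).trans (le_of_eq ?_)
      rw [sum_const, nsmul_eq_mul]
    have h2 : (5 * m / 18 - 3 * m * δ) ≤ (S.card : ℝ) :=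
      le_of_mul_le_mul_right (hsumS.trans h1) hT0
    have h3 : (s : ℝ) < S.card := by
      by_contra hcon
      push Not at hcon
      -- 5m/18 - s ≥ 1/18 > 3 m δ
      have h36 : 36 * (m : ℝ) ^ 2 * δ ≤ 1 := by rw [hδ1]; exact hmin1
      have h4 : 3 * m * δ < 1 / 18 ∨ (m : ℝ) < 2 := by
        by_cases h : (m : ℝ) < 2
        · exact Or.inr h
        · left
          push Not at h
          nlinarith
      rcases h4 with h4 | h4
      · linarith
      · have h5 : m < 2 := by exact_mod_cast h4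
        have h6 : m = 1 := by omega
        have h7 : s = 0 := by omega
        have h8 : (m : ℝ) = 1 := by rw [h6, Nat.cast_one]
        have h9 : (s : ℝ) = 0 := by rw [h7, Nat.cast_zero]
        rw [h9] at hcon
        rw [h8] at h2 h36
        have h10 : δ ≤ 1 / 36 := by linarith
        linarith
    exact_mod_cast h3
  -- the pairs
  have hpair : ∀ i ∈ S, ∀ j ∈ S, i < j →
      ((A i).card : ℝ) + (A j).card - 4 * δ * T ≤ (goodNear (κ / 2) a Y M T ((c j : ℤ) - c i) : ℝ) := by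
    intro i hi j hj hij
    have h1 := two (κ₀ := κ / 2) (a := a) (Y := Y) (N := N) (κ := κ) (ε₁ := ε₁) hM hT (hcM i) (hcM j)
      (hconv i j) (A i) (A j) (hA1 i) (hA1 j) (by
        refine le_trans ?_ (hA3 i j)
        rw [Nat.cast_le]
        apply card_le_card
        intro x hx
        rw [mem_filter] at hx ⊢
        exact ⟨hx.1, fun h => hij.ne (congrArg Prod.fst h), hx.2⟩) s₁ hs₁1
      (mem_filter.1 hi).2 (mem_filter.1 hj).2
    refine le_trans ?_ h1
    have h2 : ε₁ * (T : ℝ) ^ 2 / s₁ ≤ δ * T := by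
      have hs₁0 : (0 : ℝ) < s₁ := by exact_mod_cast hs₁1
      rw [div_le_iff₀ hs₁0, hε₁]
      have h3 : δ * T * (δ * T) ≤ δ * T * s₁ := mul_le_mul_of_nonneg_left hs₁a (by positivity)
      nlinarith
    have h3 : (2 : ℝ) ≤ δ * T := hδT
    linarith
  -- conclusion
  have h1 : ∑ i ∈ S, ∑ j ∈ S.filter (fun j => i < j),
      (((A i).card : ℝ) + (A j).card - 4 * δ * T) ≤
      ∑ i, ∑ j ∈ Ioi i, (goodNear (κ / 2) a Y M T ((c j : ℤ) - c i) : ℝ) := by
    calc ∑ i ∈ S, ∑ j ∈ S.filter (fun j => i < j), (((A i).card : ℝ) + (A j).card - 4 * δ * T)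
        ≤ ∑ i ∈ S, ∑ j ∈ S.filter (fun j => i < j),
          (goodNear (κ / 2) a Y M T ((c j : ℤ) - c i) : ℝ) := by
          refine sum_le_sum fun i hi => sum_le_sum fun j hj => ?_
          obtain ⟨hj1, hj2⟩ := mem_filter.1 hj
          exact hpair i hi j hj1 hj2
      _ ≤ ∑ i ∈ S, ∑ j ∈ Ioi i, (goodNear (κ / 2) a Y M T ((c j : ℤ) - c i) : ℝ) := by
          refine sum_le_sum fun i hi => ?_
          apply sum_le_sum_of_subset_of_nonneg
          · intro j hj
            rw [mem_Ioi]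
            exact (mem_filter.1 hj).2
          · intro j _ _
            exact Nat.cast_nonneg _
      _ ≤ _ := by
          apply sum_le_sum_of_subset_of_nonneg (subset_univ S)
          intro i _ _
          exact sum_nonneg fun j _ => Nat.cast_nonneg _
  refine le_trans ?_ h1
  have h2 : ∑ i ∈ S, ∑ j ∈ S.filter (fun j => i < j), (((A i).card : ℝ) + (A j).card - 4 * δ * T) =
      ((S.card : ℝ) - 1) * ∑ i ∈ S, ((A i).card : ℝ) -
        ((S.card : ℝ) - 1) * ∑ i ∈ S, (2 * δ * T : ℝ) := by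
    rw [← sum_pairs S (fun i => ((A i).card : ℝ)), ← sum_pairs S (fun _ => (2 * δ * T : ℝ)),
      ← sum_sub_distrib]
    refine sum_congr rfl fun i _ => ?_
    rw [← sum_sub_distrib]
    refine sum_congr rfl fun j _ => ?_
    ring
  rw [h2, sum_const, nsmul_eq_mul]
  have hScR : (s : ℝ) + 1 ≤ S.card := by exact_mod_cast hScard
  have hSm : (S.card : ℝ) ≤ m := by
    have : S.card ≤ m := by
      refine (card_filter_le _ _).trans ?_
      rw [card_univ, Fintype.card_fin]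
    exact_mod_cast this
  have hX : 0 ≤ (5 * m / 18 - 3 * m * δ) * (T : ℝ) := by
    apply mul_nonneg _ hT0.le
    have : 0 ≤ (s : ℝ) := Nat.cast_nonneg _
    nlinarith
  have h3 : (s : ℝ) * ((5 * m / 18 - 3 * m * δ) * (T : ℝ)) ≤
      ((S.card : ℝ) - 1) * ∑ i ∈ S, ((A i).card : ℝ) := by
    apply mul_le_mul (by linarith) hsumS hX
    have : (0 : ℝ) ≤ s := Nat.cast_nonneg _
    linarith
  have h4 : ((S.card : ℝ) - 1) * ((S.card : ℝ) * (2 * δ * T)) ≤ 2 * (m : ℝ) ^ 2 * δ * T := by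
    have hs0 : (0 : ℝ) ≤ s := Nat.cast_nonneg _
    have h5 : ((S.card : ℝ) - 1) * (S.card : ℝ) ≤ (m : ℝ) ^ 2 := by nlinarith
    have h6 : 0 ≤ 2 * δ * T := by positivity
    nlinarith [mul_le_mul_of_nonneg_right h5 h6]
  have h5 : (s : ℝ) * (3 * m * δ * T) ≤ 3 * (m : ℝ) ^ 2 * δ * T := by
    have h6 : (s : ℝ) * m ≤ (m : ℝ) ^ 2 := by nlinarith
    have h7 : 0 ≤ 3 * δ * T := by positivity
    nlinarith [mul_le_mul_of_nonneg_right h6 h7]
  have h6 : 36 * (m : ℝ) ^ 2 * δ * T ≤ ε * T := by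
    rw [hδ1]
    exact mul_le_mul_of_nonneg_right hmin2 hT0.le
  have h7 : 0 ≤ (m : ℝ) ^ 2 * δ * T := by positivity
  nlinarith

end Pool.Agent.N646.UW
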